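import Pool.Agent.Lib.S1.NCPlus
import Pool.Agent.Lib.S1.HollowP
import Pool.Agent.Lib.Smith.Chain
import Pool.Agent.Lib.Smith.LevelsP
import Pool.Agent.Lib.OneChar.TheoremA

/-!
# S1.NCBridge: `NearCyclic` from the minor theorem and the one-step moment

* `Smith.Lev.MinorG`: the minors of a one vertex extension (NC57, 3.1);
* `Smith.OneStep`: the moment bound for one vertex (NC57, 3.3).

Theorem A (one character) is `OneChar.thmA`.
-/

set_option autoImplicit false

open scoped Classical

namespace Pool.Agent.Lib.S1

theorem chainProp (hO : Smith.OneStep) : ChainProp := by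
  intro γ hγ
  obtain ⟨K2, hK2, m0, h⟩ := Smith.chain hO γ hγ
  refine ⟨K2, hK2, m0, fun m hm s hs hms => ?_⟩
  have h1 := h m hm s hs hms
  have h2 := card_graph_pos s
  unfold nbad frac
  rw [div_mul_eq_mul_div, div_le_one h2]
  exact h1

/-- **`NearCyclic`** from the two inputs -/
theorem nearCyclic_of_inputs (hM : Smith.Lev.MinorG) (hO : Smith.OneStep) : NearCyclic :=
  nearCyclic_of_levels (Smith.Lev.levelsProp_of OneChar.thmA hM) (chainProp hO) hollowProp

end Pool.Agent.Lib.S1
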