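import Pool.Agent.Lib.S1.NCBridge
import Pool.Agent.Lib.Smith.MinorG
import Pool.Agent.Lib.Smith.Tail

/-!
# S1.NearCyclicFinal: the second determinantal divisor of a random graph is at most `m ^ (γ m)`

The proof is in `NCPlus.lean` (assembly), `OneChar/*` (Theorem A), `Smith/*` (minors, tail, chain, levels, hollow).
-/

set_option autoImplicit false

namespace Pool.Agent.Lib.S1

/-- **`NearCyclic`** is a theorem -/
theorem nearCyclic : NearCyclic :=
  nearCyclic_of_levels (Smith.Lev.levelsProp OneChar.thmA) (chainProp Smith.oneStep) hollowProp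

end Pool.Agent.Lib.S1
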